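import Mathlib

set_option autoImplicit false

/-!
# A box theorem with degenerate pairs
-/

namespace Pool.Agent.Y918.RT

open Finset

open Classical in
/-- A set of functions without a nondegenerate cube is small. -/
theorem box {X : Type} (A : Finset X) (ρ : ℝ) (hρ0 : 0 < ρ) (hρ1 : ρ ≤ 1) :
    ∀ (G : ℕ) (r : Fin G → X → X → Prop),
      (∀ g, ∀ u ∈ A, ((A.filter (fun v => r g u v)).card : ℝ) ≤ ρ * A.card) →
      ∀ B : Finset (Fin G → X), B ⊆ Fintype.piFinset (fun _ => A) →
      (∀ u v : Fin G → X, (∀ g, u g ∈ A) → (∀ g, v g ∈ A) → (∀ g, ¬ r g (u g) (v g)) →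
        ¬ ∀ S : Finset (Fin G), (fun g => if g ∈ S then v g else u g) ∈ B) →
      (B.card : ℝ) ≤ G * ρ ^ ((1 / 2 : ℝ) ^ G) * (A.card : ℝ) ^ G := by
  intro G
  induction G with
  | zero =>
    intro r _ B _ hcube
    have hB : B = ∅ := by
      rw [Finset.eq_empty_iff_forall_notMem]
      intro b hb
      apply hcube (fun g => g.elim0) (fun g => g.elim0) (fun g => g.elim0) (fun g => g.elim0)
        (fun g => g.elim0)
      intro S
      have : (fun g => if g ∈ S then (fun g : Fin 0 => (g.elim0 : X)) g else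
          (fun g : Fin 0 => (g.elim0 : X)) g) = b := Subsingleton.elim _ _
      rw [this]
      exact hb
    rw [hB]
    simp
  | succ G ih =>
    intro r hr B hB hcube
    set Y : Finset (Fin G → X) := Fintype.piFinset (fun _ => A) with hY
    set a : ℝ := (A.card : ℝ) with ha
    have ha0 : 0 ≤ a := Nat.cast_nonneg _
    have hYc : (Y.card : ℝ) = a ^ G := by
      rw [hY, Fintype.card_piFinset_const]
      push_cast
      rfl
    let Bu : X → Finset (Fin G → X) := fun u => Y.filter (fun y => (Fin.cons u y : Fin (G + 1) → X) ∈ B)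
    let n : (Fin G → X) → ℕ := fun y => (A.filter (fun u => (Fin.cons u y : Fin (G + 1) → X) ∈ B)).card
    have hcard : B.card = ∑ y ∈ Y, n y := by
      have h1 : B = (Y.sigma (fun y => A.filter (fun u => (Fin.cons u y : Fin (G + 1) → X) ∈ B))).image
          (fun p : (_ : Fin G → X) × X => (Fin.cons p.2 p.1 : Fin (G + 1) → X)) := by
        ext b
        rw [Finset.mem_image]
        constructor
        · intro hb
          have hb' := Fintype.mem_piFinset.1 (hB hb)
          refine ⟨⟨Fin.tail b, b 0⟩, ?_, Fin.cons_self_tail b⟩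
          rw [Finset.mem_sigma, Finset.mem_filter, hY, Fintype.mem_piFinset]
          refine ⟨fun g => hb' g.succ, hb' 0, ?_⟩
          simp only [Fin.cons_self_tail]
          exact hb
        · rintro ⟨p, hp, rfl⟩
          rw [Finset.mem_sigma, Finset.mem_filter] at hp
          exact hp.2.2
      rw [h1, Finset.card_image_of_injOn, Finset.card_sigma]
      intro p _ q _ hpq
      have h2 := Fin.cons_inj.1 hpq
      rcases p with ⟨p1, p2⟩
      rcases q with ⟨q1, q2⟩
      simp only at h2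
      obtain ⟨rfl, rfl⟩ := h2
      rfl
    -- the sum of squares
    have hsq : ∑ y ∈ Y, (n y : ℝ) ^ 2 = ∑ p ∈ A ×ˢ A, ((Bu p.1 ∩ Bu p.2).card : ℝ) := by
      have h1 : ∀ y, (n y : ℝ) ^ 2 = ∑ p ∈ A ×ˢ A,
          if (Fin.cons p.1 y : Fin (G + 1) → X) ∈ B ∧ (Fin.cons p.2 y : Fin (G + 1) → X) ∈ B
          then (1 : ℝ) else 0 := by
        intro y
        simp only [n]
        rw [Finset.card_filter, Nat.cast_sum, sq, Finset.sum_mul_sum, ← Finset.sum_product']
        refine Finset.sum_congr rfl fun p _ => ?_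
        by_cases h1 : (Fin.cons p.1 y : Fin (G + 1) → X) ∈ B <;>
          by_cases h2 : (Fin.cons p.2 y : Fin (G + 1) → X) ∈ B <;> simp [h1, h2]
      rw [Finset.sum_congr rfl (fun y _ => h1 y), Finset.sum_comm]
      refine Finset.sum_congr rfl fun p _ => ?_
      rw [← Finset.filter_and, Finset.card_filter]
      push_cast
      rfl
    have hle : ∀ p ∈ A ×ˢ A, ((Bu p.1 ∩ Bu p.2).card : ℝ) ≤
        (if r 0 p.1 p.2 then a ^ G else 0) + G * ρ ^ ((1 / 2 : ℝ) ^ G) * a ^ G := by
      intro p hp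
      rw [Finset.mem_product] at hp
      have hnn : 0 ≤ G * ρ ^ ((1 / 2 : ℝ) ^ G) * a ^ G := by positivity
      by_cases h0 : r 0 p.1 p.2
      · rw [if_pos h0]
        have h1 : ((Bu p.1 ∩ Bu p.2).card : ℝ) ≤ a ^ G := by
          rw [← hYc]
          exact_mod_cast Finset.card_le_card
            (Finset.inter_subset_left.trans (Finset.filter_subset _ _))
        linarith
      · rw [if_neg h0, zero_add]
        apply ih (fun g => r g.succ) (fun g => hr g.succ) (Bu p.1 ∩ Bu p.2)
          (Finset.inter_subset_left.trans (Finset.filter_subset _ _))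
        intro u v hu hv huv hall
        apply hcube (Fin.cons p.1 u) (Fin.cons p.2 v)
          (Fin.cases (by simpa using hp.1) (fun g => by simpa using hu g))
          (Fin.cases (by simpa using hp.2) (fun g => by simpa using hv g))
          (Fin.cases (by simpa using h0) (fun g => by simpa using huv g))
        intro S
        have h1 := hall (S.preimage Fin.succ (Fin.succ_injective G).injOn)
        rw [Finset.mem_inter, Finset.mem_filter, Finset.mem_filter] at h1
        by_cases hS : (0 : Fin (G + 1)) ∈ S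
        · convert h1.2.2 using 1
          funext g
          refine Fin.cases ?_ (fun g => ?_) g
          · simp [hS]
          · simp
        · convert h1.1.2 using 1
          funext g
          refine Fin.cases ?_ (fun g => ?_) g
          · simp [hS]
          · simp
    have hdeg : ∑ p ∈ A ×ˢ A, (if r 0 p.1 p.2 then a ^ G else 0) ≤ ρ * a ^ 2 * a ^ G := by
      rw [Finset.sum_product]
      have h1 : ∀ u ∈ A, ∑ v ∈ A, (if r 0 u v then a ^ G else 0) ≤ ρ * a * a ^ G := by
        intro u hu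
        rw [← Finset.sum_filter, Finset.sum_const, nsmul_eq_mul]
        have := hr 0 u hu
        gcongr
      refine (Finset.sum_le_sum h1).trans ?_
      rw [Finset.sum_const, nsmul_eq_mul]
      apply le_of_eq
      ring
    have hsum : ∑ p ∈ A ×ˢ A, ((Bu p.1 ∩ Bu p.2).card : ℝ) ≤
        ρ * a ^ 2 * a ^ G + a ^ 2 * (G * ρ ^ ((1 / 2 : ℝ) ^ G) * a ^ G) := by
      refine (Finset.sum_le_sum hle).trans ?_
      rw [Finset.sum_add_distrib, Finset.sum_const, nsmul_eq_mul, Finset.card_product]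
      push_cast
      have := hdeg
      rw [← ha]
      nlinarith [this]
    have hcs : (B.card : ℝ) ^ 2 ≤ a ^ G * ∑ y ∈ Y, (n y : ℝ) ^ 2 := by
      rw [hcard, ← hYc]
      push_cast
      exact sq_sum_le_card_mul_sum_sq
    rw [hsq] at hcs
    have hρG : ρ ≤ ρ ^ ((1 / 2 : ℝ) ^ G) := by
      have h1 : ((1 / 2 : ℝ) ^ G) ≤ 1 := pow_le_one₀ (by norm_num) (by norm_num)
      calc ρ = ρ ^ (1 : ℝ) := (Real.rpow_one ρ).symm
        _ ≤ ρ ^ ((1 / 2 : ℝ) ^ G) := Real.rpow_le_rpow_of_exponent_ge hρ0 hρ1 h1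
    set R := ρ ^ ((1 / 2 : ℝ) ^ G) with hR
    set R' := ρ ^ ((1 / 2 : ℝ) ^ (G + 1)) with hR'
    have hR'0 : 0 ≤ R' := Real.rpow_nonneg hρ0.le _
    have hRR : R = R' ^ 2 := by
      have h1 := Real.rpow_mul hρ0.le ((1 / 2 : ℝ) ^ (G + 1)) 2
      rw [hR, hR', ← Real.rpow_two, ← h1]
      congr 1
      rw [pow_succ]
      ring
    have h5 : (B.card : ℝ) ^ 2 ≤ (((G + 1 : ℕ) : ℝ) * R' * a ^ (G + 1)) ^ 2 := by
      have h6 : (B.card : ℝ) ^ 2 ≤ a ^ G * (ρ * a ^ 2 * a ^ G + a ^ 2 * (G * R * a ^ G)) :=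
        hcs.trans (mul_le_mul_of_nonneg_left hsum (by positivity))
      have h7 : a ^ G * (ρ * a ^ 2 * a ^ G + a ^ 2 * (G * R * a ^ G)) =
          (ρ + G * R) * (a ^ (G + 1)) ^ 2 := by ring
      have h8 : ρ + G * R ≤ ((G + 1 : ℕ) : ℝ) ^ 2 * R' ^ 2 := by
        rw [← hRR]
        have h9 : ρ + G * R ≤ ((G + 1 : ℕ) : ℝ) * R := by
          push_cast
          nlinarith
        refine h9.trans ?_
        have h10 : 0 ≤ R := Real.rpow_nonneg hρ0.le _
        have h11 : ((G + 1 : ℕ) : ℝ) ≤ ((G + 1 : ℕ) : ℝ) ^ 2 := by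
          have : (1 : ℝ) ≤ ((G + 1 : ℕ) : ℝ) := by
            push_cast
            have := (Nat.cast_nonneg G : (0 : ℝ) ≤ G)
            linarith
          nlinarith
        gcongr
      calc (B.card : ℝ) ^ 2 ≤ (ρ + G * R) * (a ^ (G + 1)) ^ 2 := by rw [← h7]; exact h6
        _ ≤ (((G + 1 : ℕ) : ℝ) ^ 2 * R' ^ 2) * (a ^ (G + 1)) ^ 2 := by gcongr
        _ = (((G + 1 : ℕ) : ℝ) * R' * a ^ (G + 1)) ^ 2 := by ring
    exact le_of_sq_le_sq h5 (by positivity)
end Pool.Agent.Y918.RT
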