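import Mathlib
import Pool.Agent.Y918.SC.Block
import Pool.Agent.W342.GEL.E2

set_option autoImplicit false

/-!
# The space of the polynomials `P` with algebraic `exp (P T)`
-/

namespace Pool.Agent.Y918.RT

open Module Finset
open Pool.Agent.H327R2.SC (Lam mem_Lam)

/-- The rational vectors `q` with algebraic `exp (∑ q i * x i)`. -/
noncomputable def VA {M : ℕ} (x : Fin M → ℂ) : Submodule ℚ (Fin M → ℚ) :=
  Lam.comap (Fintype.linearCombination ℚ x)

theorem mem_VA {M : ℕ} (x : Fin M → ℂ) (q : Fin M → ℚ) :
    q ∈ VA x ↔ IsAlgebraic ℚ (Complex.exp (∑ i, (q i : ℂ) * x i)) := by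
  unfold VA
  rw [Submodule.mem_comap, mem_Lam, Fintype.linearCombination_apply]
  simp only [Rat.smul_def]

theorem pow_inj {T : ℂ} (hT : Transcendental ℚ T) (a m : ℕ) :
    Function.Injective (Fintype.linearCombination ℚ (fun i : Fin m => T ^ (a + (i : ℕ)))) := by
  rw [injective_iff_map_eq_zero]
  intro q hq
  rw [Fintype.linearCombination_apply] at hq
  have hli : LinearIndependent ℚ (fun n : ℕ => T ^ n) := by
    rw [transcendental_iff_injective] at hT
    have h1 : LinearIndependent ℚ (fun n : ℕ => (Polynomial.X : Polynomial ℚ) ^ n) := by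
      have h3 := (Polynomial.basisMonomials ℚ).linearIndependent
      convert h3 using 1
      funext n
      rw [Polynomial.coe_basisMonomials, Polynomial.X_pow_eq_monomial]
    have h2 := h1.map' (Polynomial.aeval T).toLinearMap (LinearMap.ker_eq_bot.2 hT)
    have h4 : (fun n : ℕ => T ^ n) =
        (Polynomial.aeval T).toLinearMap ∘ fun n => (Polynomial.X : Polynomial ℚ) ^ n := by
      funext n
      simp
    rw [h4]
    exact h2
  have h2 : LinearIndependent ℚ (fun i : Fin m => T ^ (a + (i : ℕ))) :=
    hli.comp (fun i : Fin m => a + (i : ℕ)) (fun i j h => Fin.ext (Nat.add_left_cancel h))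
  funext i
  exact Fintype.linearIndependent_iff.1 h2 q hq i

theorem VA_finrank {T : ℂ} (hT : Transcendental ℚ T) (a M : ℕ) :
    2 * finrank ℚ (VA (fun i : Fin M => T ^ (a + (i : ℕ)))) ≤ M + 3 := by
  cases M with
  | zero =>
    have h1 := Submodule.finrank_le (VA (fun i : Fin 0 => T ^ (a + (i : ℕ))))
    rw [Module.finrank_fintype_fun_eq_card, Fintype.card_fin] at h1
    omega
  | succ m =>
    set V := VA (fun i : Fin (m + 1) => T ^ (a + (i : ℕ))) with hV
    let s0 : (Fin m → ℚ) →ₗ[ℚ] (Fin (m + 1) → ℚ) :=
      { toFun := fun q => Fin.snoc q 0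
        map_add' := by
          intro p q
          funext j
          refine Fin.lastCases ?_ (fun j => ?_) j
          · simp
          · simp
        map_smul' := by
          intro c q
          funext j
          refine Fin.lastCases ?_ (fun j => ?_) j
          · simp
          · simp }
    let s1 : (Fin m → ℚ) →ₗ[ℚ] (Fin (m + 1) → ℚ) :=
      { toFun := fun q => Fin.cons 0 q
        map_add' := by
          intro p q
          funext j
          refine Fin.cases ?_ (fun j => ?_) j
          · simp
          · simp
        map_smul' := by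
          intro c q
          funext j
          refine Fin.cases ?_ (fun j => ?_) j
          · simp
          · simp }
    let φ : (Fin m → ℚ) →ₗ[ℚ] ((Fin (m + 1) → ℚ) ⧸ V) × ((Fin (m + 1) → ℚ) ⧸ V) :=
      (V.mkQ.comp s0).prod (V.mkQ.comp s1)
    have hker : finrank ℚ (LinearMap.ker φ) ≤ 2 := by
      by_contra hcon
      push Not at hcon
      obtain ⟨f, hf⟩ := exists_linearIndependent_of_le_finrank (R := ℚ)
        (M := LinearMap.ker φ) (n := 3) hcon
      have hf' : LinearIndependent ℚ (fun l => ((f l : LinearMap.ker φ) : Fin m → ℚ)) :=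
        hf.map' (LinearMap.ker φ).subtype (Submodule.ker_subtype _)
      set L := Fintype.linearCombination ℚ (fun i : Fin m => T ^ (a + (i : ℕ))) with hL
      have hy : LinearIndependent ℚ (fun l => L ((f l : LinearMap.ker φ) : Fin m → ℚ)) :=
        hf'.map' L (LinearMap.ker_eq_bot.2 (pow_inj hT a m))
      have hmem : ∀ l, s0 (f l) ∈ V ∧ s1 (f l) ∈ V := by
        intro l
        have h1 := (f l).2
        rw [LinearMap.mem_ker] at h1
        have h2 := congrArg Prod.fst h1
        have h3 := congrArg Prod.snd h1
        exact ⟨(Submodule.Quotient.mk_eq_zero V).1 h2, (Submodule.Quotient.mk_eq_zero V).1 h3⟩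
      refine Pool.Agent.W342.GEL.six_contra (β := T) ?_ _ hy ?_ ?_
      · intro q hq
        apply hT
        rw [hq]
        exact isAlgebraic_algebraMap q
      · intro l
        have h1 := (mem_VA _ _).1 (hmem l).1
        convert h1 using 2
        rw [hL, Fintype.linearCombination_apply, Fin.sum_univ_castSucc]
        simp [s0, Rat.smul_def]
      · intro l
        have h1 := (mem_VA _ _).1 (hmem l).2
        convert h1 using 2
        rw [hL, Fintype.linearCombination_apply, Fin.sum_univ_succ, Finset.mul_sum]
        simp only [s1, LinearMap.coe_mk, AddHom.coe_mk, Fin.cons_zero, Rat.cast_zero, zero_mul,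
          zero_add, Fin.cons_succ, Rat.smul_def]
        refine Finset.sum_congr rfl fun i _ => ?_
        rw [Fin.val_succ]
        ring
    have h1 := LinearMap.finrank_range_add_finrank_ker φ
    have h2 : finrank ℚ (LinearMap.range φ) ≤
        finrank ℚ (((Fin (m + 1) → ℚ) ⧸ V) × ((Fin (m + 1) → ℚ) ⧸ V)) :=
      Submodule.finrank_le _
    rw [Module.finrank_prod] at h2
    have h3 := Submodule.finrank_quotient_add_finrank V
    rw [Module.finrank_fintype_fun_eq_card, Fintype.card_fin] at h3
    rw [Module.finrank_fintype_fun_eq_card, Fintype.card_fin] at h1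
    omega

open Classical in
/-- The number of the elements of a box in a coset. -/
theorem card_coset {M : ℕ} (V : Submodule ℚ (Fin M → ℚ)) (A : Finset ℚ) (w : Fin M → ℚ) :
    ((Fintype.piFinset fun _ : Fin M => A).filter (fun u => u - w ∈ V)).card ≤
      A.card ^ finrank ℚ V := by
  obtain ⟨J, hJ, hinj⟩ := Pool.Agent.Y918.SC.coord_compl V
  have h1 : (Fintype.piFinset fun _ : {j // j ∉ J} => A).card = A.card ^ finrank ℚ V := by
    rw [Fintype.card_piFinset, Finset.prod_const, Finset.card_univ]
    congr 1
    rw [Fintype.card_subtype_compl, Fintype.card_fin, Fintype.card_coe]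
    omega
  rw [← h1]
  apply Finset.card_le_card_of_injOn (fun u (j : {j // j ∉ J}) => u j)
  · intro u hu
    rw [Finset.mem_coe, Finset.mem_filter, Fintype.mem_piFinset] at hu
    rw [Finset.mem_coe, Fintype.mem_piFinset]
    exact fun j => hu.1 j
  · intro u hu v hv huv
    rw [Finset.mem_coe, Finset.mem_filter] at hu hv
    have h2 : u - v ∈ V := by
      have := V.sub_mem hu.2 hv.2
      rwa [sub_sub_sub_cancel_right] at this
    have h3 := hinj _ h2 (by
      intro j hj
      have := congrFun huv ⟨j, hj⟩
      simp only at this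
      rw [Pi.sub_apply, this, sub_self])
    exact sub_eq_zero.1 h3

end Pool.Agent.Y918.RT
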