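import Mathlib
import Pool.Agent.Y918.SC.MCube
import Pool.Agent.Y918.SC.Block
import Pool.Agent.Y918.RT.Box
import Pool.Agent.Y918.RT.Vsp

set_option autoImplicit false

/-!
# The multiplicative cube theorem and the exceptional polynomials of one step
-/

namespace Pool.Agent.Y918.RT

open Module Finset
open Pool.Agent.H301R2.SSE (QB mem_QB)
open Pool.Agent.W245 (IndepOver)
open Pool.Agent.Y918.SC (nGr nRk monE cubeE Ex)

theorem IndepOver.congr {E F : Type*} [Fintype E] [Fintype F] {W : Submodule QB ℂ} {g : E → ℂ}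
    (e : F ≃ E) {h : F → ℂ} (hgh : ∀ x, g (e x) = h x) (hg : IndepOver W g) : IndepOver W h := by
  intro c hc h0 x
  have h1 := hg (fun y => c (e.symm y)) (fun y => hc _) (by
    rw [← h0, ← e.sum_comp]
    refine Finset.sum_congr rfl fun x _ => ?_
    rw [e.symm_apply_apply, hgh]) (e x)
  simpa using h1

/-- **The multiplicative cube theorem.** -/
theorem mcube (N D : ℕ) : ∃ G : ℕ, 0 < G ∧ ∀ W : Submodule QB ℂ, Module.Finite QB W →
    finrank QB W ≤ N → ∀ (z₀ : ℂ) (w : Fin G → ℂ),
    (∀ g, Transcendental ℚ (Complex.exp (w g))) →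
    ∃ S : Finset (Fin G),
      IndepOver W (fun e : Fin (D + 1) => Complex.exp (z₀ + ∑ g ∈ S, w g) ^ (e : ℕ)) := by
  classical
  have hac : IsAlgClosure ℚ QB := algebraicClosure.isAlgClosure ℚ ℂ
  have hacl : IsAlgClosed QB := IsAlgClosure.isAlgClosed ℚ
  set nG : ℕ → ℕ := fun N' => nGr (Fin N') (Fin 0) (Fin 1) D with hnG
  set G : ℕ := 1 + ∑ N' ∈ Finset.range (N + 1), nG N' with hG
  refine ⟨G, by omega, fun W hW hWN z₀ w hw => ?_⟩
  obtain ⟨N', hN'⟩ : ∃ N', N' = finrank QB W := ⟨_, rfl⟩
  have hle : nG N' ≤ G := by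
    have := Finset.single_le_sum (f := nG) (fun _ _ => Nat.zero_le _)
      (Finset.mem_range.2 (show N' < N + 1 by omega))
    omega
  let b : Basis (Fin N') QB W := Module.finBasisOfFinrankEq QB W hN'.symm
  have hb : LinearIndependent QB (fun i => (b i : ℂ)) :=
    b.linearIndependent.map' W.subtype (Submodule.ker_subtype W)
  have hspan : Submodule.span QB (Set.range (fun i => (b i : ℂ))) = W := by
    have h1 : Set.range (fun i => (b i : ℂ)) = W.subtype '' Set.range b := by
      rw [← Set.range_comp]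
      rfl
    rw [h1, Submodule.span_image, b.span_eq, Submodule.map_subtype_top]
  let ι : Fin (nG N') → Fin G := Fin.castLE hle
  obtain ⟨η, hη⟩ := cubeE QB ℂ (Fin N') (Fin 0) (Fin 1) D Unit (fun i => (b i : ℂ)) hb
    (fun a => a.elim0) (fun _ => Complex.exp z₀) (fun _ => Complex.exp_ne_zero _)
    (fun g i a => a.elim0) (fun g i l => Complex.exp (w (ι g)))
    (by
      intro g γ hγ
      exact absurd (Subsingleton.elim _ _) hγ)
    (fun g i l => Complex.exp_ne_zero _)
    (by
      intro g i e e' hee c c' hc hc' heq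
      apply hee
      funext l
      rw [Subsingleton.elim l 0]
      simp only [Finset.univ_unique, Fin.default_eq_zero, Finset.prod_singleton] at heq
      rw [Algebra.smul_def, Algebra.smul_def, ← Complex.exp_nat_mul, ← Complex.exp_nat_mul] at heq
      by_contra hne
      have h1 : (algebraMap QB ℂ) c ≠ 0 := by
        rw [Ne, FaithfulSMul.algebraMap_eq_zero_iff]
        exact hc
      have h2 : Complex.exp (((e 0 : ℕ) : ℂ) * w (ι g)) / Complex.exp (((e' 0 : ℕ) : ℂ) * w (ι g)) =
          (algebraMap QB ℂ) c' / (algebraMap QB ℂ) c := by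
        rw [div_eq_div_iff (Complex.exp_ne_zero _) h1, mul_comm]
        exact heq
      rw [← Complex.exp_sub] at h2
      have h3 : IsAlgebraic ℚ (Complex.exp (((e 0 : ℕ) : ℂ) * w (ι g) -
          ((e' 0 : ℕ) : ℂ) * w (ι g))) := by
        rw [h2, ← map_div₀]
        exact mem_QB.1 (c' / c).2
      apply hw (ι g)
      have h4 : ((e 0 : ℕ) : ℚ) - ((e' 0 : ℕ) : ℚ) ≠ 0 := by
        rw [sub_ne_zero]
        intro h
        apply hne
        apply Fin.ext
        exact_mod_cast h
      have h5 := Pool.Agent.H327R2.SC.Lam.smul_mem ((((e 0 : ℕ) : ℚ) - ((e' 0 : ℕ) : ℚ))⁻¹)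
        (Pool.Agent.H327R2.SC.mem_Lam.2 h3)
      rw [Pool.Agent.H327R2.SC.mem_Lam] at h5
      convert h5 using 2
      rw [← sub_mul, Rat.smul_def]
      push_cast
      rw [← mul_assoc, inv_mul_cancel₀, one_mul]
      exact_mod_cast h4)
  refine ⟨(Finset.univ.filter (fun g => (η g).isSome)).map (Fin.castLEEmb hle), ?_⟩
  rw [hspan] at hη
  have hval : ∀ l : Fin 1, Complex.exp z₀ * ∏ g, (η g).elim 1 (fun _ => Complex.exp (w (ι g))) =
      Complex.exp (z₀ + ∑ g ∈ (Finset.univ.filter (fun g => (η g).isSome)).map (Fin.castLEEmb hle),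
        w g) := by
    intro _
    rw [Complex.exp_add, Finset.sum_map, Complex.exp_sum, Finset.prod_filter]
    congr 1
    refine Finset.prod_congr rfl fun g _ => ?_
    cases η g <;> simp [ι]
  let F : Fin (D + 1) ≃ Ex (Fin 0) (Fin 1) D :=
    { toFun := fun e _ => e
      invFun := fun e => e (Sum.inr 0)
      left_inv := fun e => rfl
      right_inv := fun e => by
        funext x
        rcases x with x | x
        · exact x.elim0
        · rw [Subsingleton.elim x 0] }
  refine IndepOver.congr F ?_ hη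
  intro e
  unfold monE
  simp only [Finset.univ_eq_empty, Finset.prod_empty, one_mul, Finset.univ_unique,
    Fin.default_eq_zero, Finset.prod_singleton]
  rw [hval 0]
  rfl

end Pool.Agent.Y918.RT
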