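import Mathlib
import Pool.Agent.W245.MixedTuples
import Pool.Agent.Y918.RT.Step

set_option autoImplicit false

/-!
# Random towers of exponentials
-/

namespace Pool.Agent.Y918.RT

open Module Finset
open Pool.Agent.H301R2.SSE (QB mem_QB)
open Pool.Agent.W245 (IndepOver IndepT famExt famExt_finite)

/-- `T` is the tower of exponentials which starts at `t` and is given by the functions `R` and the
polynomials `P`. -/
def IsTower {n k : ℕ} (R : Fin n → ℂ → ℂ) (t : ℂ) (P : Fin n → Fin k → ℚ)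
    (T : Fin (n + 1) → ℂ) : Prop :=
  T 0 = t ∧ ∀ j : Fin n, T j.succ =
    Complex.exp (R j (T j.castSucc) + ∑ i : Fin k, (P j i : ℂ) * T j.castSucc ^ (i : ℕ))

/-- The powers of `z` up to the exponent `D`. -/
noncomputable def pw (D : ℕ) (z : ℂ) (e : Fin (D + 1)) : ℂ := z ^ (e : ℕ)

open Classical in
theorem towers (D n : ℕ) : ∀ N : ℕ, ∃ (k₀ C : ℕ) (δ : ℝ), 0 < δ ∧ δ ≤ 1 / 4 ∧ ∀ k ≥ k₀,
    ∀ A : Finset ℚ, A.Nonempty → ∀ W : Submodule QB ℂ, Module.Finite QB W → finrank QB W ≤ N →
    ∀ R : Fin n → ℂ → ℂ, ∀ t : ℂ, Transcendental ℚ t →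
    (((Fintype.piFinset fun _ : Fin n => Fintype.piFinset fun _ : Fin k => A).filter
      (fun P : Fin n → Fin k → ℚ => ∃ T : Fin (n + 1) → ℂ, IsTower R t P T ∧
        ¬ IndepT W (fun j => pw D (T j.succ)))).card : ℝ) ≤
      C * (A.card : ℝ) ^ ((n * k : ℝ) - δ * k) := by
  induction n with
  | zero =>
    intro N
    refine ⟨0, 0, 1 / 4, by norm_num, le_rfl, fun k _ A _ W _ _ R t _ => ?_⟩
    rw [Finset.filter_false_of_mem]
    · simp
    · rintro P _ ⟨T, _, hT⟩
      exact hT (IndepT.zero _ _)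
  | succ n ih =>
    intro N
    obtain ⟨k₁, C₁, δ₁, hδ₁, hδ₁', h₁⟩ := step N D
    obtain ⟨k₂, C₂, δ₂, hδ₂, hδ₂', h₂⟩ := ih (N * Fintype.card (Fin (D + 1)))
    refine ⟨k₁ + k₂ + 6, 1 + C₁ + C₂, min δ₁ δ₂, lt_min hδ₁ hδ₂, (min_le_left _ _).trans hδ₁',
      fun k hk A hA W hW hWN R t ht => ?_⟩
    set δ := min δ₁ δ₂ with hδ
    set a : ℝ := (A.card : ℝ) with ha
    have ha1 : 1 ≤ a := by
      rw [ha]
      exact_mod_cast hA.card_pos
    have ha0 : 0 < a := by linarith
    set XA : Finset (Fin k → ℚ) := Fintype.piFinset fun _ => A with hXA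
    have hXAc : (XA.card : ℝ) = a ^ (k : ℝ) := by
      rw [hXA, Fintype.card_piFinset_const, Real.rpow_natCast]
      push_cast
      rfl
    set Yn : Finset (Fin n → Fin k → ℚ) := Fintype.piFinset fun _ => XA with hYn
    have hYc : (Yn.card : ℝ) = a ^ (n * k : ℝ) := by
      rw [hYn, Fintype.card_piFinset_const]
      push_cast
      rw [hXAc, ← Real.rpow_natCast, ← Real.rpow_mul ha0.le, mul_comm]
    let ev : (Fin k → ℚ) → ℂ := fun p =>
      Complex.exp (R 0 t + ∑ i : Fin k, (p i : ℂ) * t ^ (i : ℕ))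
    set H1 : Finset (Fin k → ℚ) := XA.filter (fun p => IsAlgebraic ℚ (ev p)) with hH1
    set H2 : Finset (Fin k → ℚ) := XA.filter (fun p => ¬ IndepOver W (pw D (ev p))) with hH2
    set B := ((Fintype.piFinset fun _ : Fin (n + 1) => XA).filter
      (fun P : Fin (n + 1) → Fin k → ℚ => ∃ T : Fin (n + 1 + 1) → ℂ, IsTower R t P T ∧
        ¬ IndepT W (fun j => pw D (T j.succ)))) with hB
    have hH1c : (H1.card : ℝ) ≤ a ^ ((k : ℝ) - δ * k) := by
      have h3 : H1.card ≤ A.card ^ finrank ℚ (VA (fun i : Fin k => t ^ (0 + (i : ℕ)))) := by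
        rcases H1.eq_empty_or_nonempty with h0 | ⟨p₀, hp₀⟩
        · rw [h0]
          simp
        refine (Finset.card_le_card ?_).trans
          (card_coset (VA (fun i : Fin k => t ^ (0 + (i : ℕ)))) A p₀)
        intro p hp
        rw [hH1, Finset.mem_filter] at hp hp₀
        rw [Finset.mem_filter, mem_VA]
        refine ⟨hp.1, ?_⟩
        have h4 : ∑ i : Fin k, (((p - p₀) i : ℚ) : ℂ) * t ^ (0 + (i : ℕ)) =
            (R 0 t + ∑ i : Fin k, (p i : ℂ) * t ^ (i : ℕ)) -
            (R 0 t + ∑ i : Fin k, (p₀ i : ℂ) * t ^ (i : ℕ)) := by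
          rw [add_sub_add_left_eq_sub, ← Finset.sum_sub_distrib]
          refine Finset.sum_congr rfl fun i _ => ?_
          rw [Pi.sub_apply, zero_add]
          push_cast
          ring
        rw [h4, Complex.exp_sub, div_eq_mul_inv]
        exact hp.2.mul hp₀.2.inv
      have h4 := VA_finrank ht 0 k
      have h5 : (H1.card : ℝ) ≤ a ^ (finrank ℚ (VA (fun i : Fin k => t ^ (0 + (i : ℕ)))) : ℝ) := by
        rw [Real.rpow_natCast, ha]
        exact_mod_cast h3
      refine h5.trans (Real.rpow_le_rpow_of_exponent_le ha1 ?_)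
      have h6 : (2 : ℝ) * (finrank ℚ (VA (fun i : Fin k => t ^ (0 + (i : ℕ)))) : ℝ) ≤ k + 3 := by
        exact_mod_cast h4
      have h7 : (6 : ℝ) ≤ k := by
        have : 6 ≤ k := by omega
        exact_mod_cast this
      have h8 : δ ≤ 1 / 4 := (min_le_left _ _).trans hδ₁'
      nlinarith
    have hH2c : (H2.card : ℝ) ≤ C₁ * a ^ ((k : ℝ) - δ * k) := by
      refine (h₁ k (by omega) A hA W hW hWN t ht (R 0 t)).trans ?_
      have : δ ≤ δ₁ := min_le_left _ _
      gcongr
    have hfib : B.card = ∑ p ∈ XA, (B.filter (fun P => P 0 = p)).card := by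
      apply Finset.card_eq_sum_card_fiberwise
      intro P hP
      exact Fintype.mem_piFinset.1 (Finset.mem_filter.1 hP).1 0
    have hinj : ∀ p, Set.InjOn (fun P : Fin (n + 1) → Fin k → ℚ => Fin.tail P)
        (B.filter (fun P => P 0 = p)) := by
      intro p P hP P' hP' hPP
      rw [Finset.mem_coe, Finset.mem_filter] at hP hP'
      rw [← Fin.cons_self_tail P, ← Fin.cons_self_tail P', hP.2, hP'.2]
      exact congrArg _ hPP
    have hall : ∀ p ∈ XA, ((B.filter (fun P => P 0 = p)).card : ℝ) ≤ a ^ (n * k : ℝ) := by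
      intro p _
      rw [← hYc]
      apply Nat.cast_le.2
      refine Finset.card_le_card_of_injOn (fun P => Fin.tail P) ?_ (hinj p)
      intro P hP
      rw [Finset.mem_coe, Finset.mem_filter, hB, Finset.mem_filter] at hP
      have h3 := Fintype.mem_piFinset.1 hP.1.1
      exact Fintype.mem_piFinset.2 (fun j => h3 j.succ)
    have hgood : ∀ p ∈ XA, p ∉ H1 ∪ H2 → ((B.filter (fun P => P 0 = p)).card : ℝ) ≤
        C₂ * a ^ ((n * k : ℝ) - δ * k) := by
      intro p hp hpH
      rw [Finset.mem_union, not_or] at hpH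
      have hp1 : Transcendental ℚ (ev p) := fun h => hpH.1 (Finset.mem_filter.2 ⟨hp, h⟩)
      have hp2 : IndepOver W (pw D (ev p)) := by
        by_contra h
        exact hpH.2 (Finset.mem_filter.2 ⟨hp, h⟩)
      obtain ⟨hfin, hrk⟩ := famExt_finite W N hWN (pw D (ev p))
      have h3 := h₂ k (by omega) A hA _ hfin hrk (fun j => R j.succ) (ev p) hp1
      have h4 : a ^ ((n * k : ℝ) - δ₂ * k) ≤ a ^ ((n * k : ℝ) - δ * k) := by
        have : δ ≤ δ₂ := min_le_right _ _
        gcongr
      refine le_trans (Nat.cast_le.2 ?_) (h3.trans ?_)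
      · refine Finset.card_le_card_of_injOn (fun P => Fin.tail P) ?_ (hinj p)
        intro P hP
        rw [Finset.mem_coe, Finset.mem_filter, hB, Finset.mem_filter] at hP
        obtain ⟨⟨hPA, T, ⟨hT0, hT⟩, hTi⟩, hP0⟩ := hP
        have h6 := Fintype.mem_piFinset.1 hPA
        rw [Finset.mem_coe, Finset.mem_filter]
        refine ⟨Fintype.mem_piFinset.2 (fun j => h6 j.succ), Fin.tail T, ⟨?_, fun j => ?_⟩, ?_⟩
        · have h7 := hT 0
          rw [hP0, Fin.castSucc_zero, hT0] at h7
          exact h7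
        · exact hT j.succ
        · intro h7
          apply hTi
          have h8 := IndepT.cons hp2 h7
          convert h8 using 1
          funext j
          refine Fin.cases ?_ (fun j => ?_) j
          · have h9 := hT 0
            rw [hP0, Fin.castSucc_zero, hT0] at h9
            rw [Fin.cons_zero, h9]
          · rw [Fin.cons_succ]
            rfl
      · gcongr
    have htot : (B.card : ℝ) ≤ ((H1.card : ℝ) + H2.card) * a ^ (n * k : ℝ) +
        a ^ (k : ℝ) * (C₂ * a ^ ((n * k : ℝ) - δ * k)) := by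
      rw [hfib]
      push_cast
      rw [← Finset.sum_filter_add_sum_filter_not XA (fun p => p ∈ H1 ∪ H2)]
      apply add_le_add
      · refine (Finset.sum_le_sum (fun p hp => hall p (Finset.mem_filter.1 hp).1)).trans ?_
        rw [Finset.sum_const, nsmul_eq_mul]
        have h3 : ((XA.filter (fun p => p ∈ H1 ∪ H2)).card : ℝ) ≤ (H1.card : ℝ) + H2.card := by
          have h4 : (XA.filter (fun p => p ∈ H1 ∪ H2)).card ≤ H1.card + H2.card := by
            refine (Finset.card_le_card ?_).trans (Finset.card_union_le H1 H2)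
            intro p hp
            exact (Finset.mem_filter.1 hp).2
          exact_mod_cast h4
        gcongr
      · refine (Finset.sum_le_sum (fun p hp => hgood p (Finset.mem_filter.1 hp).1
          (Finset.mem_filter.1 hp).2)).trans ?_
        rw [Finset.sum_const, nsmul_eq_mul, ← hXAc]
        have h3 : ((XA.filter (fun p => ¬ p ∈ H1 ∪ H2)).card : ℝ) ≤ XA.card := by
          exact_mod_cast Finset.card_le_card (Finset.filter_subset _ _)
        gcongr
    refine htot.trans ?_
    have h3 : ((H1.card : ℝ) + H2.card) * a ^ (n * k : ℝ) ≤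
        ((1 + C₁) * a ^ ((k : ℝ) - δ * k)) * a ^ (n * k : ℝ) := by
      have : (H1.card : ℝ) + H2.card ≤ (1 + C₁) * a ^ ((k : ℝ) - δ * k) := by linarith
      gcongr
    have h4 : ((1 + C₁) * a ^ ((k : ℝ) - δ * k)) * a ^ (n * k : ℝ) +
        a ^ (k : ℝ) * (C₂ * a ^ ((n * k : ℝ) - δ * k)) =
        (1 + C₁ + C₂) * a ^ (((n : ℝ) + 1) * k - δ * k) := by
      have e1 : a ^ ((k : ℝ) - δ * k) * a ^ (n * k : ℝ) = a ^ (((n : ℝ) + 1) * k - δ * k) := by
        rw [← Real.rpow_add ha0]
        congr 1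
        ring
      have e2 : a ^ (k : ℝ) * a ^ ((n * k : ℝ) - δ * k) = a ^ (((n : ℝ) + 1) * k - δ * k) := by
        rw [← Real.rpow_add ha0]
        congr 1
        ring
      calc _ = (1 + (C₁ : ℝ)) * (a ^ ((k : ℝ) - δ * k) * a ^ (n * k : ℝ)) +
            C₂ * (a ^ (k : ℝ) * a ^ ((n * k : ℝ) - δ * k)) := by ring
        _ = _ := by rw [e1, e2]; ring
    push_cast
    linarith

/-- Exponents. -/
noncomputable def expoM {m D : ℕ} (s : Fin m → Fin (D + 1)) : Fin m →₀ ℕ :=
  Finsupp.equivFunOnFinite.symm (fun p => (s p : ℕ))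

theorem expoM_injective {m D : ℕ} : Function.Injective (expoM (m := m) (D := D)) := by
  intro s s' h
  funext i
  exact Fin.ext (DFunLike.congr_fun h i)

/-- From independence to polynomials. -/
theorem poly_of_indepT {m D : ℕ} (T : Fin m → ℂ)
    (h : IndepT (Submodule.span QB {(1 : ℂ)}) (fun j => pw D (T j)))
    (p : MvPolynomial (Fin m) QB) (hdeg : ∀ i, p.degreeOf i ≤ D)
    (h0 : MvPolynomial.aeval T p = 0) : p = 0 := by
  classical
  have hsupp : p.support ⊆ (univ : Finset (Fin m → Fin (D + 1))).image expoM := by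
    intro M hM
    rw [Finset.mem_image]
    refine ⟨fun i => ⟨M i,
      Nat.lt_succ_of_le ((MvPolynomial.degreeOf_le_iff.1 (hdeg i)) M hM)⟩,
      Finset.mem_univ _, ?_⟩
    ext v
    rfl
  have h1 : ∑ s : Fin m → Fin (D + 1), algebraMap QB ℂ (p.coeff (expoM s)) *
      ∏ i, pw D (T i) (s i) = 0 := by
    rw [← h0, MvPolynomial.aeval_def, MvPolynomial.eval₂_eq']
    rw [Finset.sum_subset hsupp (by
      intro M _ hM
      rw [MvPolynomial.notMem_support_iff.1 hM, map_zero, zero_mul])]
    rw [Finset.sum_image (fun a _ b _ h => expoM_injective h)]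
    rfl
  have h2 := h (fun s => algebraMap QB ℂ (p.coeff (expoM s))) (fun s => by
    rw [Algebra.algebraMap_eq_smul_one]
    exact Submodule.smul_mem _ _ (Submodule.mem_span_singleton_self _)) h1
  ext M
  rw [MvPolynomial.coeff_zero]
  by_cases hM : M ∈ p.support
  · obtain ⟨s, _, rfl⟩ := Finset.mem_image.1 (hsupp hM)
    have h3 := h2 s
    rw [FaithfulSMul.algebraMap_eq_zero_iff] at h3
    exact congrArg Subtype.val h3
  · rw [MvPolynomial.notMem_support_iff.1 hM]

theorem indep_pw {t : ℂ} (ht : Transcendental ℚ t) (D : ℕ) :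
    IndepOver (Submodule.span QB {(1 : ℂ)}) (pw D t) := by
  have ht' : Transcendental QB t := by
    intro h
    have : Algebra.IsAlgebraic ℚ QB := algebraicClosure.isAlgebraic ℚ ℂ
    exact ht (h.restrictScalars ℚ)
  intro c hc h0 e
  have h1 : ∀ e, ∃ a : QB, a • (1 : ℂ) = c e := fun e => Submodule.mem_span_singleton.1 (hc e)
  choose a ha using h1
  rw [transcendental_iff] at ht'
  have h2 := ht' (∑ e : Fin (D + 1), Polynomial.monomial (e : ℕ) (a e)) (by
    rw [map_sum, ← h0]
    refine Finset.sum_congr rfl fun e _ => ?_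
    rw [Polynomial.aeval_monomial, ← ha e, Algebra.algebraMap_eq_smul_one]
    rfl)
  have h3 := congrArg (fun q => q.coeff (e : ℕ)) h2
  simp only [Polynomial.finsetSum_coeff, Polynomial.coeff_monomial, Polynomial.coeff_zero] at h3
  rw [Finset.sum_eq_single e] at h3
  · rw [if_pos rfl] at h3
    rw [← ha e, h3, zero_smul]
  · intro e' _ hne
    rw [if_neg (fun h => hne (Fin.ext h))]
  · intro h; exact absurd (Finset.mem_univ _) h

end Pool.Agent.Y918.RT
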